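import Pool.Agent.V1126.ZwrZChain

/-!
# An uncountable chain of quasi-parabolic hyperbolic structures on `ℤ ≀ ℤ`

For a positive real `α` let `Q α` be the subgroup of `⨁_ℤ ℤ` of all `x` such that `2 ^ ⌊α i⌋` divides
`x i` for all `i > 0`. The ascending HNN extensions over the `Q α` give a chain indexed by the
positive reals.
-/

set_option autoImplicit false

namespace Pool.Agent.Results.MP_6b630c_al.UncountableChain

open Pool.Agent.V1126.QP

/-- **Main theorem.** The poset of quasi-parabolic hyperbolic structures on `ℤ ≀ ℤ` contains an
uncountable chain. -/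
theorem result : ∃ C : Set (Hqp ZwrZ), IsChain (· ≤ ·) C ∧ ¬ C.Countable :=
  ZwrZ.exists_chain (MonoidHom.id ZwrZ) Function.surjective_id

end Pool.Agent.Results.MP_6b630c_al.UncountableChain
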